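import Pool.Agent.H83.VU.Targets

/-!
# Bilinear sums, third step
-/

set_option autoImplicit false

open Finset Polynomial Pool.Agent.H83.VU

namespace Pool.Agent.H88.VU

/-- the sum over one coordinate -/
noncomputable def WW (a : ℝ) (L : ℕ) (g : ℤ) : ℂ := ∑ h ∈ Icc (-(L : ℤ)) L, e (a * g * h)

theorem VV_pow {k : ℕ} (a : Fin k → ℝ) (s Z : ℕ) (h : Fin k → ℤ) :
    VV a Z h ^ s = ∑ u ∈ box s Z, e (dt a (ps k u * h)) := by
  have h1 : VV a Z h ^ s = ∏ _i : Fin s, ∑ x ∈ Icc 1 (Z : ℤ), e (dt a (pw k x * h)) := by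
    simp [VV]
  rw [h1, prod_univ_sum]
  refine sum_congr rfl fun u _ => ?_
  rw [← e_sum]
  congr 1
  rw [ps_eq_sum]
  unfold dt
  rw [sum_comm]
  refine sum_congr rfl fun j _ => ?_
  rw [← mul_sum]
  congr 1
  simp only [Pi.mul_apply, Finset.sum_apply]
  push_cast
  rw [sum_mul]

theorem norm_VV_pow {k : ℕ} (a : Fin k → ℝ) (s Z : ℕ) (h : Fin k → ℤ) :
    ((‖VV a Z h‖ ^ (2 * s) : ℝ) : ℂ) =
      ∑ q ∈ box s Z ×ˢ box s Z, e (dt a ((ps k q.1 - ps k q.2) * h)) := by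
  have h1 : ((‖VV a Z h‖ ^ (2 * s) : ℝ) : ℂ) = VV a Z h ^ s * (starRingEnd ℂ) (VV a Z h ^ s) := by
    rw [Complex.mul_conj, Complex.normSq_eq_norm_sq, norm_pow, mul_comm 2 s, pow_mul]
  rw [h1, VV_pow, map_sum, sum_mul_sum, sum_product]
  refine sum_congr rfl fun u _ => sum_congr rfl fun v _ => ?_
  rw [← e_neg, ← e_add, sub_mul, dt_sub, sub_eq_add_neg]

theorem sum_HH {k : ℕ} (a : Fin k → ℝ) (s Z : ℕ) (g : Fin k → ℤ) :
    ∑ h ∈ HH k s Z, e (dt a (g * h)) = ∏ j : Fin k, WW (a j) (s * Z ^ ((j : ℕ) + 1)) (g j) := by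
  unfold WW HH
  rw [prod_univ_sum]
  refine sum_congr rfl fun h _ => ?_
  rw [← e_sum]
  congr 1
  unfold dt
  refine sum_congr rfl fun j _ => ?_
  simp only [Pi.mul_apply]
  push_cast
  ring

theorem mem_HH {k s Z : ℕ} {u v : Fin s → ℤ} (hu : u ∈ box s Z) (hv : v ∈ box s Z) :
    ps k u - ps k v ∈ HH k s Z := by
  unfold HH
  rw [Fintype.mem_piFinset]
  intro j
  have hb : ∀ w : Fin s → ℤ, w ∈ box s Z → 0 ≤ ps k w j ∧
      ps k w j ≤ ((s * Z ^ ((j : ℕ) + 1) : ℕ) : ℤ) := by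
    intro w hw
    have h1 : ∀ i, 1 ≤ w i ∧ w i ≤ (Z : ℤ) := fun i => mem_Icc.mp (mem_vec.mp hw i)
    constructor
    · refine sum_nonneg fun i _ => pow_nonneg ?_ _
      have := (h1 i).1
      omega
    · calc ps k w j ≤ ∑ _i : Fin s, (Z : ℤ) ^ ((j : ℕ) + 1) := by
            refine sum_le_sum fun i _ => pow_le_pow_left₀ ?_ (h1 i).2 _
            have := (h1 i).1
            omega
        _ = ((s * Z ^ ((j : ℕ) + 1) : ℕ) : ℤ) := by
            simp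
  have h1 := hb u hu
  have h2 := hb v hv
  rw [mem_Icc, Pi.sub_apply]
  constructor <;> linarith [h1.1, h1.2, h2.1, h2.2]

theorem pf_BI3 (hCS : T_CS) : T_BI3 := by
  intro k s Z a hs
  set F : (Fin k → ℤ) → ℝ := fun g => ∏ j : Fin k, ‖WW (a j) (s * Z ^ ((j : ℕ) + 1)) (g j)‖ with hF
  have h1 : ((∑ h ∈ HH k s Z, ‖VV a Z h‖ ^ (2 * s) : ℝ) : ℂ) =
      ∑ q ∈ box s Z ×ˢ box s Z,
        ∏ j : Fin k, WW (a j) (s * Z ^ ((j : ℕ) + 1)) ((ps k q.1 - ps k q.2) j) := by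
    rw [Complex.ofReal_sum]
    simp only [norm_VV_pow]
    rw [sum_comm]
    refine sum_congr rfl fun q _ => ?_
    rw [sum_HH]
  have h0 : 0 ≤ ∑ h ∈ HH k s Z, ‖VV a Z h‖ ^ (2 * s) := sum_nonneg fun h _ => by positivity
  have h2 : ∑ h ∈ HH k s Z, ‖VV a Z h‖ ^ (2 * s) ≤
      ∑ q ∈ box s Z ×ˢ box s Z, F (ps k q.1 - ps k q.2) := by
    calc ∑ h ∈ HH k s Z, ‖VV a Z h‖ ^ (2 * s)
        = ‖((∑ h ∈ HH k s Z, ‖VV a Z h‖ ^ (2 * s) : ℝ) : ℂ)‖ := by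
          rw [Complex.norm_real, Real.norm_of_nonneg h0]
      _ ≤ ∑ q ∈ box s Z ×ˢ box s Z, F (ps k q.1 - ps k q.2) := by
          rw [h1]
          refine (norm_sum_le _ _).trans (le_of_eq (sum_congr rfl fun q _ => ?_))
          rw [norm_prod]
  have h3 : ∑ q ∈ box s Z ×ˢ box s Z, F (ps k q.1 - ps k q.2) =
      ∑ g ∈ HH k s Z, (rr k s (Icc 1 (Z : ℤ)) g : ℝ) * F g := by
    rw [← sum_fiberwise_of_maps_to (s := box s Z ×ˢ box s Z) (t := HH k s Z)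
      (g := fun q => ps k q.1 - ps k q.2)
      (fun q hq => mem_HH (mem_product.mp hq).1 (mem_product.mp hq).2)]
    refine sum_congr rfl fun g _ => ?_
    rw [sum_congr rfl (g := fun _ => F g)
      (fun q hq => by rw [(mem_filter.mp hq).2])]
    rw [sum_const, nsmul_eq_mul]
    rfl
  have hFn : ∀ g, 0 ≤ F g := fun g => prod_nonneg fun j _ => norm_nonneg _
  have h4 : ∑ g ∈ HH k s Z, (rr k s (Icc 1 (Z : ℤ)) g : ℝ) * F g ≤
      (J s k Z : ℝ) * ∑ g ∈ HH k s Z, F g := by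
    rw [mul_sum]
    refine sum_le_sum fun g _ => mul_le_mul_of_nonneg_right ?_ (hFn g)
    exact_mod_cast hCS k s (Icc 1 (Z : ℤ)) g
  have h5 : ∑ g ∈ HH k s Z, F g = ∏ j : Fin k, MM (a j) (s * Z ^ ((j : ℕ) + 1)) := by
    unfold MM HH
    rw [prod_univ_sum]
    rfl
  rw [← h5]
  exact h2.trans (h3.le.trans h4)

end Pool.Agent.H88.VU
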