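import Pool.Agent.H83.VU.Targets

/-!
# A prime number which does not divide the discriminants
-/

set_option autoImplicit false

open Finset Polynomial Pool.Agent.H83.VU

namespace Pool.Agent.H88.VU

theorem pf_DSC : T_DSC := by
  intro k N P x y hk hx hy hP hp
  by_contra hcon
  push Not at hcon
  have hx1 : ∀ i, 1 ≤ x i ∧ x i ≤ (N : ℤ) := by
    have h := (mem_filter.mp hx).1
    intro i
    exact mem_Icc.mp (mem_vec.mp h i)
  have hy1 : ∀ i, 1 ≤ y i ∧ y i ≤ (N : ℤ) := by
    have h := (mem_filter.mp hy).1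
    intro i
    exact mem_Icc.mp (mem_vec.mp h i)
  have hx2 : ∀ i j, x i = x j → i = j := (mem_filter.mp hx).2
  have hy2 : ∀ i j, y i = y j → i = j := (mem_filter.mp hy).2
  have hN : 1 ≤ N := by
    have h := hx1 ⟨0, by omega⟩
    omega
  set f : Fin k × Fin k → ℤ := fun q =>
    if q.1 < q.2 then x q.1 - x q.2 else if q.2 < q.1 then y q.1 - y q.2 else 1 with hf
  have hf0 : ∀ q, f q ≠ 0 := by
    intro q
    simp only [hf]
    split_ifs with h1 h2
    · intro h
      exact (ne_of_lt h1) (hx2 _ _ (by linarith))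
    · intro h
      exact (ne_of_lt h2) (hy2 _ _ (by linarith)).symm
    · exact one_ne_zero
  have hfN : ∀ q, (f q).natAbs ≤ N := by
    intro q
    simp only [hf]
    split_ifs with h1 h2
    · have := hx1 q.1
      have := hx1 q.2
      omega
    · have := hy1 q.1
      have := hy1 q.2
      omega
    · simpa using hN
  have hD0 : (∏ q, f q) ≠ 0 := prod_ne_zero_iff.mpr fun q _ => hf0 q
  have hDN : (∏ q, f q).natAbs ≤ N ^ (k ^ 2) := by
    have h1 : (∏ q, f q).natAbs = ∏ q, (f q).natAbs := map_prod Int.natAbsHom f univ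
    rw [h1]
    calc ∏ q, (f q).natAbs ≤ ∏ _q : Fin k × Fin k, N := prod_le_prod' fun q _ => hfN q
      _ = N ^ (k ^ 2) := by simp [pow_two]
  have hdiv : ∀ p ∈ P, p ∣ (∏ q, f q).natAbs := by
    intro p hpP
    have hex : ∃ q, (p : ℤ) ∣ f q := by
      by_cases hxp : x ∈ XX k N p
      · have h1 := hcon p hpP hxp
        have h2 : ¬ (∀ i j, (p : ℤ) ∣ y i - y j → i = j) := fun h =>
          h1 (mem_filter.mpr ⟨(mem_filter.mp hy).1, h⟩)
        push Not at h2
        obtain ⟨i, j, hd, hij⟩ := h2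
        rcases lt_or_gt_of_ne hij with h | h
        · refine ⟨(j, i), ?_⟩
          simp only [hf, h, not_lt.mpr h.le, if_false, if_true]
          rw [← neg_sub]
          exact hd.neg_right
        · refine ⟨(i, j), ?_⟩
          simp only [hf, h, not_lt.mpr h.le, if_false, if_true]
          exact hd
      · have h2 : ¬ (∀ i j, (p : ℤ) ∣ x i - x j → i = j) := fun h =>
          hxp (mem_filter.mpr ⟨(mem_filter.mp hx).1, h⟩)
        push Not at h2
        obtain ⟨i, j, hd, hij⟩ := h2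
        rcases lt_or_gt_of_ne hij with h | h
        · refine ⟨(i, j), ?_⟩
          simp only [hf, h, if_true]
          exact hd
        · refine ⟨(j, i), ?_⟩
          simp only [hf, h, if_true]
          rw [← neg_sub]
          exact hd.neg_right
    obtain ⟨q, hq⟩ := hex
    exact Int.natCast_dvd.mp (hq.trans (dvd_prod_of_mem f (mem_univ q)))
  obtain ⟨P', hP', hcard⟩ := exists_subset_card_eq hP
  have hprod : ∏ p ∈ P', p ∣ (∏ q, f q).natAbs :=
    Finset.prod_primes_dvd _ (fun p hpp => (hp p (hP' hpp)).1.prime) fun p hpp => hdiv p (hP' hpp)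
  have hle : ∏ p ∈ P', p ≤ N ^ (k ^ 2) :=
    (Nat.le_of_dvd (Int.natAbs_pos.mpr hD0) hprod).trans hDN
  have h1 : (N + 1) ^ (k ^ 3) ≤ (∏ p ∈ P', p) ^ k := by
    rw [← prod_pow, ← hcard, ← prod_const]
    exact prod_le_prod' fun p hpp => (hp p (hP' hpp)).2
  have h2 : (∏ p ∈ P', p) ^ k ≤ N ^ (k ^ 3) := by
    calc (∏ p ∈ P', p) ^ k ≤ (N ^ (k ^ 2)) ^ k := Nat.pow_le_pow_left hle k
      _ = N ^ (k ^ 3) := by rw [← pow_mul]; ring_nf
  have h3 : N ^ (k ^ 3) < (N + 1) ^ (k ^ 3) :=
    Nat.pow_lt_pow_left (Nat.lt_succ_self N) (by positivity)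
  omega

end Pool.Agent.H88.VU
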