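import Pool.Agent.H83.VU.Targets

/-!
# Solutions with two components which are injective modulo `p`
-/

set_option autoImplicit false

open Finset Polynomial Pool.Agent.H83.VU

namespace Pool.Agent.H88.VU

theorem pf_SPB (hHOL : T_HOL) (hCLS : T_CLS) (hLIN : T_LIN) : T_SPB := by
  intro k s N p hk hs hp hkp hN
  obtain ⟨a, -, ha⟩ := hHOL k s N p (XX k N p) hs hp.one_lt.le (filter_subset _ _)
  refine ha.trans ?_
  have h1 := hCLS k s N p a (XX k N p) hp.one_lt.le
  have h2 : ((XX k N p ×ˢ XX k N p).filter fun q => ∀ j ∈ Icc 1 k,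
      (p : ℤ) ^ j ∣ ∑ i, (q.1 i - (a : ℤ)) ^ j - ∑ i, (q.2 i - (a : ℤ)) ^ j).card ≤
      k.factorial * p ^ (k * (k - 1) / 2) * (XX k N p).card := by
    refine card_le_mul_card_image_of_maps_to (f := Prod.snd) ?_ _ ?_
    · intro q hq
      exact (mem_product.mp (mem_filter.mp hq).1).2
    · intro y hy
      refine le_trans ?_ (hLIN k p N (a : ℤ) (fun j => ∑ i, (y i - (a : ℤ)) ^ j) hp hkp hN hk)
      refine card_le_card_of_injOn Prod.fst ?_ ?_
      · intro q hq
        have hq1 := mem_filter.mp (mem_coe.mp hq)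
        have hq2 := mem_filter.mp hq1.1
        rw [mem_coe, mem_filter]
        refine ⟨(mem_product.mp hq2.1).1, ?_⟩
        intro j hj
        have h3 := hq2.2 j hj
        rw [hq1.2] at h3
        exact h3
      · intro q hq q' hq' hqq
        have hq1 := (mem_filter.mp (mem_coe.mp hq)).2
        have hq2 := (mem_filter.mp (mem_coe.mp hq')).2
        exact Prod.ext hqq (hq1.trans hq2.symm)
  have h3 : (XX k N p).card ≤ N ^ k := by
    calc (XX k N p).card ≤ (box k N).card := card_le_card (filter_subset _ _)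
      _ = N ^ k := by
        unfold H83.VU.box
        rw [card_vec]
        simp
  calc p ^ (2 * s) * cA k s (XX k N p) ((Icc 1 (N : ℤ)).filter fun n => (p : ℤ) ∣ n - a)
      ≤ p ^ (2 * s) * (k.factorial * p ^ (k * (k - 1) / 2) * N ^ k * J s k (N / p + 1)) := by
        refine Nat.mul_le_mul le_rfl (h1.trans (Nat.mul_le_mul ?_ le_rfl))
        exact h2.trans (Nat.mul_le_mul le_rfl h3)
    _ = p ^ (2 * s) * (N ^ k * (k.factorial * p ^ (k * (k - 1) / 2))) * J s k (N / p + 1) := by
        ring

end Pool.Agent.H88.VU
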